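import Mathlib

/-!
# A connected cubic graph with a strict domination chain

A connected cubic graph on 32 vertices with `ir < γ < i < β₀ < Γ < IR`. It is obtained from a
13-vertex piece (vertices `0..12`) and a 19-vertex piece (vertices `13..31`) joined by the edge
`{2, 31}`.
-/

set_option autoImplicit false

namespace Pool.Agent.Results.MP_93f3b8_co.StrictChain

open SimpleGraph

section Definitions

variable {V : Type*} (G : SimpleGraph V)

/-- The closed neighbourhood `N[v]`. -/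
def closedNbhd (v : V) : Set V := {w | w = v ∨ G.Adj v w}

/-- `N[S]`, the union of the closed neighbourhoods of the vertices of `S`. -/
def closedNbhdSet (S : Set V) : Set V := {w | ∃ v ∈ S, w ∈ closedNbhd G v}

/-- `S` is dominating: `N[S] = V`. -/
def IsDominating (S : Set V) : Prop := closedNbhdSet G S = Set.univ

/-- `S` is independent: no two of its vertices are adjacent. -/
def IsIndependent (S : Set V) : Prop := ∀ v ∈ S, ∀ w ∈ S, ¬ G.Adj v w

/-- `S` is irredundant: every `v ∈ S` has a private neighbour, `N[v] \ N[S \ {v}] ≠ ∅`. -/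
def IsIrredundant (S : Set V) : Prop :=
  ∀ v ∈ S, (closedNbhd G v \ closedNbhdSet G (S \ {v})).Nonempty

/-- `ir(G)`: the minimum size of a maximal irredundant set. -/
noncomputable def irLower : ℕ := sInf {k | ∃ S : Set V, Maximal (IsIrredundant G) S ∧ S.ncard = k}

/-- `γ(G)`: the minimum size of a dominating set. -/
noncomputable def gammaLower : ℕ := sInf {k | ∃ S : Set V, IsDominating G S ∧ S.ncard = k}

/-- `i(G)`: the minimum size of a maximal independent set. -/
noncomputable def indepLower : ℕ :=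
  sInf {k | ∃ S : Set V, Maximal (IsIndependent G) S ∧ S.ncard = k}

/-- `β₀(G)`: the maximum size of an independent set. -/
noncomputable def betaUpper : ℕ := sSup {k | ∃ S : Set V, IsIndependent G S ∧ S.ncard = k}

/-- `Γ(G)`: the maximum size of a minimal dominating set. -/
noncomputable def gammaUpper : ℕ :=
  sSup {k | ∃ S : Set V, Minimal (IsDominating G) S ∧ S.ncard = k}

/-- `IR(G)`: the maximum size of an irredundant set. -/
noncomputable def irUpper : ℕ := sSup {k | ∃ S : Set V, IsIrredundant G S ∧ S.ncard = k}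

end Definitions

section General

variable {V : Type*} (G : SimpleGraph V)

theorem isDominating_iff (S : Set V) :
    IsDominating G S ↔ ∀ w, ∃ v ∈ S, w = v ∨ G.Adj v w := by
  simp only [IsDominating, closedNbhdSet, closedNbhd, Set.eq_univ_iff_forall, Set.mem_ofPred_eq]

theorem isIrredundant_iff (S : Set V) :
    IsIrredundant G S ↔
      ∀ v ∈ S, ∃ x, (x = v ∨ G.Adj v x) ∧ ∀ y ∈ S, y ≠ v → ¬ (x = y ∨ G.Adj y x) := by
  simp only [IsIrredundant, closedNbhdSet, closedNbhd, Set.Nonempty, Set.mem_sdiff,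
    Set.mem_ofPred_eq, Set.mem_singleton_iff, not_exists, not_and]
  constructor
  · intro h v hv
    obtain ⟨x, hx, hx'⟩ := h v hv
    exact ⟨x, hx, fun y hy hne => hx' y ⟨hy, hne⟩⟩
  · intro h v hv
    obtain ⟨x, hx, hx'⟩ := h v hv
    exact ⟨x, hx, fun y hy => hx' y hy.1 hy.2⟩

theorem IsIrredundant.mono {G : SimpleGraph V} {S T : Set V} (hT : IsIrredundant G T)
    (h : S ⊆ T) : IsIrredundant G S := by
  rw [isIrredundant_iff] at hT ⊢
  intro v hv
  obtain ⟨x, hx, hx'⟩ := hT v (h hv)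
  exact ⟨x, hx, fun y hy hne => hx' y (h hy) hne⟩

/-- A dominating set in which every vertex has a private neighbour is a minimal dominating set. -/
theorem minimal_of_irredundant {S : Set V} (hd : IsDominating G S) (hi : IsIrredundant G S) :
    Minimal (IsDominating G) S := by
  refine ⟨hd, fun T hT hTS v hv => ?_⟩
  by_contra hvT
  obtain ⟨x, hx, hx'⟩ := (isIrredundant_iff G S).1 hi v hv
  obtain ⟨y, hy, hyx⟩ := (isDominating_iff G T).1 hT x
  exact hx' y (hTS hy) (fun h => hvT (h ▸ hy)) hyx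

/-- Every vertex of a minimal dominating set has a private neighbour. -/
theorem irredundant_of_minimal {S : Set V} (h : Minimal (IsDominating G) S) :
    IsIrredundant G S := by
  rw [isIrredundant_iff]
  intro v hv
  by_contra hcon
  push Not at hcon
  have hd : IsDominating G (S \ {v}) := by
    rw [isDominating_iff]
    intro w
    obtain ⟨u, hu, huw⟩ := (isDominating_iff G S).1 h.1 w
    by_cases huv : u = v
    · subst huv
      obtain ⟨y, hy, hne, hyw⟩ := hcon w huw
      exact ⟨y, ⟨hy, hne⟩, hyw⟩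
    · exact ⟨u, ⟨hu, huv⟩, huw⟩
  have := h.2 hd (fun x hx => hx.1) hv
  exact this.2 rfl

/-- A maximal independent set is dominating. -/
theorem dominating_of_maximal_indep {S : Set V} (h : Maximal (IsIndependent G) S) :
    IsDominating G S := by
  rw [isDominating_iff]
  intro w
  by_contra hcon
  push Not at hcon
  have hw : w ∉ S := fun hw => (hcon w hw).1 rfl
  have hind : IsIndependent G (insert w S) := by
    rintro a (rfl | ha) b (rfl | hb)
    · exact G.irrefl
    · exact fun hab => (hcon b hb).2 hab.symm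
    · exact (hcon a ha).2
    · exact h.1 a ha b hb
  exact hw (h.2 hind (Set.subset_insert _ _) (Set.mem_insert _ _))

/-- An independent dominating set is a maximal independent set. -/
theorem maximal_indep_of_dominating {S : Set V} (hi : IsIndependent G S)
    (hd : IsDominating G S) : Maximal (IsIndependent G) S := by
  refine ⟨hi, fun T hT hST w hw => ?_⟩
  obtain ⟨v, hv, rfl | hvw⟩ := (isDominating_iff G S).1 hd w
  · exact hv
  · exact absurd hvw (hT v (hST hv) w hw)

/-- An irredundant set that cannot be extended by one vertex is a maximal irredundant set. -/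
theorem maximal_irredundant {S : Set V} (hi : IsIrredundant G S)
    (h : ∀ w, w ∉ S → ¬ IsIrredundant G (insert w S)) : Maximal (IsIrredundant G) S := by
  refine ⟨hi, fun T hT hST w hw => ?_⟩
  by_contra hwS
  exact h w hwS (hT.mono (Set.insert_subset hw hST))

variable {G}

theorem irLower_le {S : Set V} (h : Maximal (IsIrredundant G) S) : irLower G ≤ S.ncard :=
  Nat.sInf_le ⟨S, h, rfl⟩

theorem gammaLower_le {S : Set V} (h : IsDominating G S) : gammaLower G ≤ S.ncard :=
  Nat.sInf_le ⟨S, h, rfl⟩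

theorem le_gammaLower {k : ℕ} (h : ∀ S : Set V, IsDominating G S → k ≤ S.ncard) :
    k ≤ gammaLower G := by
  refine le_csInf ⟨_, Set.univ, ?_, rfl⟩ ?_
  · rw [isDominating_iff]
    exact fun w => ⟨w, trivial, Or.inl rfl⟩
  · rintro m ⟨S, hS, rfl⟩
    exact h S hS

theorem indepLower_le {S : Set V} (h : Maximal (IsIndependent G) S) : indepLower G ≤ S.ncard :=
  Nat.sInf_le ⟨S, h, rfl⟩

theorem le_indepLower {k : ℕ} {S₀ : Set V} (h₀ : Maximal (IsIndependent G) S₀)
    (h : ∀ S : Set V, Maximal (IsIndependent G) S → k ≤ S.ncard) : k ≤ indepLower G := by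
  refine le_csInf ⟨_, S₀, h₀, rfl⟩ ?_
  rintro m ⟨S, hS, rfl⟩
  exact h S hS

theorem le_betaUpper [Finite V] {S : Set V} (h : IsIndependent G S) : S.ncard ≤ betaUpper G := by
  refine le_csSup ⟨Nat.card V, ?_⟩ ⟨S, h, rfl⟩
  rintro m ⟨T, -, rfl⟩
  exact Set.ncard_le_card T

theorem betaUpper_le {k : ℕ} (h : ∀ S : Set V, IsIndependent G S → S.ncard ≤ k) :
    betaUpper G ≤ k := by
  refine csSup_le ⟨_, ∅, ?_, rfl⟩ ?_
  · intro v hv
    exact absurd hv (Set.notMem_empty v)
  · rintro m ⟨S, hS, rfl⟩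
    exact h S hS

theorem le_gammaUpper [Finite V] {S : Set V} (h : Minimal (IsDominating G) S) :
    S.ncard ≤ gammaUpper G := by
  refine le_csSup ⟨Nat.card V, ?_⟩ ⟨S, h, rfl⟩
  rintro m ⟨T, -, rfl⟩
  exact Set.ncard_le_card T

theorem gammaUpper_le {k : ℕ} {S₀ : Set V} (h₀ : Minimal (IsDominating G) S₀)
    (h : ∀ S : Set V, Minimal (IsDominating G) S → S.ncard ≤ k) : gammaUpper G ≤ k := by
  refine csSup_le ⟨_, S₀, h₀, rfl⟩ ?_
  rintro m ⟨S, hS, rfl⟩
  exact h S hS

theorem le_irUpper [Finite V] {S : Set V} (h : IsIrredundant G S) : S.ncard ≤ irUpper G := by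
  refine le_csSup ⟨Nat.card V, ?_⟩ ⟨S, h, rfl⟩
  rintro m ⟨T, -, rfl⟩
  exact Set.ncard_le_card T

end General

/-! ### The graph -/

/-- The three neighbours of each vertex. -/
def N : Fin 32 → Fin 3 → Fin 32 :=
  ![![1, 11, 12],
    ![0, 9, 10],
    ![3, 4, 31],
    ![2, 11, 12],
    ![2, 9, 10],
    ![6, 8, 10],
    ![5, 7, 9],
    ![6, 8, 11],
    ![5, 7, 12],
    ![1, 4, 6],
    ![1, 4, 5],
    ![0, 3, 7],
    ![0, 3, 8],
    ![18, 29, 30],
    ![16, 20, 22],
    ![17, 19, 21],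
    ![14, 23, 25],
    ![15, 24, 26],
    ![13, 27, 28],
    ![15, 20, 31],
    ![14, 19, 22],
    ![15, 28, 31],
    ![14, 20, 27],
    ![16, 24, 25],
    ![17, 23, 26],
    ![16, 23, 30],
    ![17, 24, 29],
    ![18, 22, 28],
    ![18, 21, 27],
    ![13, 26, 30],
    ![13, 25, 29],
    ![2, 19, 21]]

/-- `O v t` lists the two neighbours of `N v t` other than `v`. -/
def O : Fin 32 → Fin 3 → Fin 2 → Fin 32 :=
  ![![![9, 10], ![3, 7], ![3, 8]],
    ![![11, 12], ![4, 6], ![4, 5]],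
    ![![11, 12], ![9, 10], ![19, 21]],
    ![![4, 31], ![0, 7], ![0, 8]],
    ![![3, 31], ![1, 6], ![1, 5]],
    ![![7, 9], ![7, 12], ![1, 4]],
    ![![8, 10], ![8, 11], ![1, 4]],
    ![![5, 9], ![5, 12], ![0, 3]],
    ![![6, 10], ![6, 11], ![0, 3]],
    ![![0, 10], ![2, 10], ![5, 7]],
    ![![0, 9], ![2, 9], ![6, 8]],
    ![![1, 12], ![2, 12], ![6, 8]],
    ![![1, 11], ![2, 11], ![5, 7]],
    ![![27, 28], ![26, 30], ![25, 29]],
    ![![23, 25], ![19, 22], ![20, 27]],
    ![![24, 26], ![20, 31], ![28, 31]],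
    ![![20, 22], ![24, 25], ![23, 30]],
    ![![19, 21], ![23, 26], ![24, 29]],
    ![![29, 30], ![22, 28], ![21, 27]],
    ![![17, 21], ![14, 22], ![2, 21]],
    ![![16, 22], ![15, 31], ![14, 27]],
    ![![17, 19], ![18, 27], ![2, 19]],
    ![![16, 20], ![14, 19], ![18, 28]],
    ![![14, 25], ![17, 26], ![16, 30]],
    ![![15, 26], ![16, 25], ![17, 29]],
    ![![14, 23], ![16, 24], ![13, 29]],
    ![![15, 24], ![17, 23], ![13, 30]],
    ![![13, 28], ![14, 20], ![18, 21]],
    ![![13, 27], ![15, 31], ![18, 22]],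
    ![![18, 30], ![17, 24], ![13, 25]],
    ![![18, 29], ![16, 23], ![13, 26]],
    ![![3, 4], ![15, 20], ![15, 28]]]

/-- The cubic graph. -/
def G : SimpleGraph (Fin 32) where
  Adj v w := ∃ t, N v t = w
  symm := ⟨by decide +kernel⟩
  loopless := ⟨by decide +kernel⟩

theorem N_inj : ∀ v, Function.Injective (N v) := by decide +kernel

theorem cubic (v : Fin 32) : (G.neighborSet v).ncard = 3 := by
  have h : G.neighborSet v = N v '' Set.univ := by
    ext w
    simp only [SimpleGraph.mem_neighborSet, Set.image_univ, Set.mem_range]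
    rfl
  rw [h, Set.ncard_image_of_injective _ (N_inj v), Set.ncard_univ]
  simp

theorem O_spec : ∀ v t y, (y = N v t ∨ ∃ s, N (N v t) s = y) →
    y = v ∨ y = N v t ∨ y = O v t 0 ∨ y = O v t 1 := by decide +kernel

theorem O_spec' : ∀ v t, (∃ s, N (N v t) s = O v t 0) ∧ (∃ s, N (N v t) s = O v t 1) ∧
    N v t ≠ v ∧ O v t 0 ≠ v ∧ O v t 1 ≠ v := by decide +kernel

theorem connected : G.Connected := by
  rw [SimpleGraph.connected_iff_exists_forall_reachable]
  refine ⟨0, ?_⟩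
  have step : ∀ (v : Fin 32) (t : Fin 3), G.Reachable 0 v → G.Reachable 0 (N v t) :=
    fun v t h => h.trans (SimpleGraph.Adj.reachable ⟨t, rfl⟩)
  have r0 : G.Reachable 0 0 := SimpleGraph.Reachable.refl _
  have r1 : G.Reachable 0 1 := step 0 0 r0
  have r11 : G.Reachable 0 11 := step 0 1 r0
  have r12 : G.Reachable 0 12 := step 0 2 r0
  have r9 : G.Reachable 0 9 := step 1 1 r1
  have r10 : G.Reachable 0 10 := step 1 2 r1
  have r3 : G.Reachable 0 3 := step 11 1 r11
  have r7 : G.Reachable 0 7 := step 11 2 r11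
  have r8 : G.Reachable 0 8 := step 12 2 r12
  have r4 : G.Reachable 0 4 := step 9 1 r9
  have r6 : G.Reachable 0 6 := step 9 2 r9
  have r5 : G.Reachable 0 5 := step 10 2 r10
  have r2 : G.Reachable 0 2 := step 3 0 r3
  have r31 : G.Reachable 0 31 := step 2 2 r2
  have r19 : G.Reachable 0 19 := step 31 1 r31
  have r21 : G.Reachable 0 21 := step 31 2 r31
  have r15 : G.Reachable 0 15 := step 19 0 r19
  have r20 : G.Reachable 0 20 := step 19 1 r19
  have r28 : G.Reachable 0 28 := step 21 1 r21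
  have r17 : G.Reachable 0 17 := step 15 0 r15
  have r14 : G.Reachable 0 14 := step 20 0 r20
  have r22 : G.Reachable 0 22 := step 20 2 r20
  have r18 : G.Reachable 0 18 := step 28 0 r28
  have r27 : G.Reachable 0 27 := step 28 2 r28
  have r24 : G.Reachable 0 24 := step 17 1 r17
  have r26 : G.Reachable 0 26 := step 17 2 r17
  have r16 : G.Reachable 0 16 := step 14 0 r14
  have r13 : G.Reachable 0 13 := step 18 0 r18
  have r23 : G.Reachable 0 23 := step 24 1 r24
  have r29 : G.Reachable 0 29 := step 26 2 r26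
  have r25 : G.Reachable 0 25 := step 16 2 r16
  have r30 : G.Reachable 0 30 := step 13 2 r13
  intro v
  fin_cases v
  · exact r0
  · exact r1
  · exact r2
  · exact r3
  · exact r4
  · exact r5
  · exact r6
  · exact r7
  · exact r8
  · exact r9
  · exact r10
  · exact r11
  · exact r12
  · exact r13
  · exact r14
  · exact r15
  · exact r16
  · exact r17
  · exact r18
  · exact r19
  · exact r20
  · exact r21
  · exact r22
  · exact r23
  · exact r24
  · exact r25
  · exact r26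
  · exact r27
  · exact r28
  · exact r29
  · exact r30
  · exact r31

/-! ### Boolean constraints and exhaustive search -/

/-- Both values of a Boolean pass the test. -/
def all2 (f : Bool → Bool) : Bool := cond (f false) (f true) false

/-- Lazy implication. -/
def imp (c d : Bool) : Bool := cond c d true

theorem all2_iff {f : Bool → Bool} : all2 f = true ↔ ∀ x, f x = true := by
  unfold all2
  constructor
  · intro h x
    cases h0 : f false
    · rw [h0] at h; cases h
    · rw [h0] at h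
      cases x
      · exact h0
      · exact h
  · intro h
    rw [h false]
    exact h true

theorem imp_iff {c d : Bool} : imp c d = true ↔ (c = true → d = true) := by
  cases c <;> simp [imp]

/-- One of the four values is true. -/
def dm (a b c d : Bool) : Bool := a || (b || (c || d))

/-- Not both values are true. -/
def nt (a b : Bool) : Bool := !(a && b)

/-- If `x` is in the set then it has a private neighbour. -/
def pv (x n0 n1 n2 p0 q0 p1 q1 p2 q2 : Bool) : Bool :=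
  !x || ((!n0 && (!n1 && !n2)) || ((!n0 && (!p0 && !q0)) || ((!n1 && (!p1 && !q1)) ||
    (!n2 && (!p2 && !q2)))))

theorem pr {p c : ℕ} (h : p < c) : (!Nat.ble c p) = true := by
  cases hb : Nat.ble c p
  · rfl
  · exact absurd (Nat.le_of_ble_eq_true hb) (by omega)

def capGA (z a : Bool) : ℕ := (cond z (cond a 4 4) (cond a 4 4))
def chkGA : Bool :=
  all2 fun z =>
  all2 fun x2 =>
  all2 fun x4 =>
  all2 fun x3 =>
  imp (dm x2 x3 x4 z) <|
  all2 fun x12 =>
  imp (!Nat.ble (capGA z x2) (x2.toNat + x4.toNat + x3.toNat + x12.toNat)) <|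
  all2 fun x11 =>
  imp (dm x3 x2 x11 x12) <|
  imp (!Nat.ble (capGA z x2) (x2.toNat + x4.toNat + x3.toNat + x12.toNat + x11.toNat)) <|
  all2 fun x7 =>
  imp (!Nat.ble (capGA z x2) (x2.toNat + x4.toNat + x3.toNat + x12.toNat + x11.toNat + x7.toNat)) <|
  all2 fun x0 =>
  imp (dm x11 x0 x3 x7) <|
  imp (!Nat.ble (capGA z x2) (x2.toNat + x4.toNat + x3.toNat + x12.toNat + x11.toNat + x7.toNat + x0.toNat)) <|
  all2 fun x8 =>
  imp (dm x12 x0 x3 x8) <|
  imp (!Nat.ble (capGA z x2) (x2.toNat + x4.toNat + x3.toNat + x12.toNat + x11.toNat + x7.toNat + x0.toNat + x8.toNat)) <|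
  all2 fun x5 =>
  imp (dm x8 x5 x7 x12) <|
  imp (!Nat.ble (capGA z x2) (x2.toNat + x4.toNat + x3.toNat + x12.toNat + x11.toNat + x7.toNat + x0.toNat + x8.toNat + x5.toNat)) <|
  all2 fun x1 =>
  imp (dm x0 x1 x11 x12) <|
  imp (!Nat.ble (capGA z x2) (x2.toNat + x4.toNat + x3.toNat + x12.toNat + x11.toNat + x7.toNat + x0.toNat + x8.toNat + x5.toNat + x1.toNat)) <|
  all2 fun x10 =>
  imp (dm x10 x1 x4 x5) <|
  imp (!Nat.ble (capGA z x2) (x2.toNat + x4.toNat + x3.toNat + x12.toNat + x11.toNat + x7.toNat + x0.toNat + x8.toNat + x5.toNat + x1.toNat + x10.toNat)) <|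
  all2 fun x6 =>
  imp (dm x5 x6 x8 x10) <|
  imp (dm x7 x6 x8 x11) <|
  imp (!Nat.ble (capGA z x2) (x2.toNat + x4.toNat + x3.toNat + x12.toNat + x11.toNat + x7.toNat + x0.toNat + x8.toNat + x5.toNat + x1.toNat + x10.toNat + x6.toNat)) <|
  all2 fun x9 =>
  imp (dm x1 x0 x9 x10) <|
  imp (dm x4 x2 x9 x10) <|
  imp (dm x6 x5 x7 x9) <|
  imp (dm x9 x1 x4 x6) <|
  Nat.ble (capGA z x2) (x0.toNat + x1.toNat + x2.toNat + x3.toNat + x4.toNat + x5.toNat + x6.toNat + x7.toNat + x8.toNat + x9.toNat + x10.toNat + x11.toNat + x12.toNat)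

theorem chkGA_true : chkGA = true := by decide +kernel

def capGC (z a : Bool) : ℕ := (cond z (cond a 6 5) (cond a 6 5))
def chkGC : Bool :=
  all2 fun z =>
  all2 fun x31 =>
  all2 fun x19 =>
  all2 fun x21 =>
  imp (dm x31 z x19 x21) <|
  all2 fun x20 =>
  imp (!Nat.ble (capGC z x31) (x31.toNat + x19.toNat + x21.toNat + x20.toNat)) <|
  all2 fun x15 =>
  imp (dm x19 x15 x20 x31) <|
  imp (!Nat.ble (capGC z x31) (x31.toNat + x19.toNat + x21.toNat + x20.toNat + x15.toNat)) <|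
  all2 fun x17 =>
  imp (dm x15 x17 x19 x21) <|
  imp (!Nat.ble (capGC z x31) (x31.toNat + x19.toNat + x21.toNat + x20.toNat + x15.toNat + x17.toNat)) <|
  all2 fun x28 =>
  imp (dm x21 x15 x28 x31) <|
  imp (!Nat.ble (capGC z x31) (x31.toNat + x19.toNat + x21.toNat + x20.toNat + x15.toNat + x17.toNat + x28.toNat)) <|
  all2 fun x22 =>
  imp (!Nat.ble (capGC z x31) (x31.toNat + x19.toNat + x21.toNat + x20.toNat + x15.toNat + x17.toNat + x28.toNat + x22.toNat)) <|
  all2 fun x14 =>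
  imp (dm x20 x14 x19 x22) <|
  imp (!Nat.ble (capGC z x31) (x31.toNat + x19.toNat + x21.toNat + x20.toNat + x15.toNat + x17.toNat + x28.toNat + x22.toNat + x14.toNat)) <|
  all2 fun x27 =>
  imp (dm x22 x14 x20 x27) <|
  imp (!Nat.ble (capGC z x31) (x31.toNat + x19.toNat + x21.toNat + x20.toNat + x15.toNat + x17.toNat + x28.toNat + x22.toNat + x14.toNat + x27.toNat)) <|
  all2 fun x18 =>
  imp (dm x27 x18 x22 x28) <|
  imp (dm x28 x18 x21 x27) <|
  imp (!Nat.ble (capGC z x31) (x31.toNat + x19.toNat + x21.toNat + x20.toNat + x15.toNat + x17.toNat + x28.toNat + x22.toNat + x14.toNat + x27.toNat + x18.toNat)) <|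
  all2 fun x16 =>
  imp (dm x14 x16 x20 x22) <|
  imp (!Nat.ble (capGC z x31) (x31.toNat + x19.toNat + x21.toNat + x20.toNat + x15.toNat + x17.toNat + x28.toNat + x22.toNat + x14.toNat + x27.toNat + x18.toNat + x16.toNat)) <|
  all2 fun x23 =>
  imp (!Nat.ble (capGC z x31) (x31.toNat + x19.toNat + x21.toNat + x20.toNat + x15.toNat + x17.toNat + x28.toNat + x22.toNat + x14.toNat + x27.toNat + x18.toNat + x16.toNat + x23.toNat)) <|
  all2 fun x25 =>
  imp (dm x16 x14 x23 x25) <|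
  imp (!Nat.ble (capGC z x31) (x31.toNat + x19.toNat + x21.toNat + x20.toNat + x15.toNat + x17.toNat + x28.toNat + x22.toNat + x14.toNat + x27.toNat + x18.toNat + x16.toNat + x23.toNat + x25.toNat)) <|
  all2 fun x24 =>
  imp (dm x23 x16 x24 x25) <|
  imp (!Nat.ble (capGC z x31) (x31.toNat + x19.toNat + x21.toNat + x20.toNat + x15.toNat + x17.toNat + x28.toNat + x22.toNat + x14.toNat + x27.toNat + x18.toNat + x16.toNat + x23.toNat + x25.toNat + x24.toNat)) <|
  all2 fun x26 =>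
  imp (dm x17 x15 x24 x26) <|
  imp (dm x24 x17 x23 x26) <|
  imp (!Nat.ble (capGC z x31) (x31.toNat + x19.toNat + x21.toNat + x20.toNat + x15.toNat + x17.toNat + x28.toNat + x22.toNat + x14.toNat + x27.toNat + x18.toNat + x16.toNat + x23.toNat + x25.toNat + x24.toNat + x26.toNat)) <|
  all2 fun x29 =>
  imp (dm x26 x17 x24 x29) <|
  imp (!Nat.ble (capGC z x31) (x31.toNat + x19.toNat + x21.toNat + x20.toNat + x15.toNat + x17.toNat + x28.toNat + x22.toNat + x14.toNat + x27.toNat + x18.toNat + x16.toNat + x23.toNat + x25.toNat + x24.toNat + x26.toNat + x29.toNat)) <|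
  all2 fun x13 =>
  imp (dm x18 x13 x27 x28) <|
  imp (!Nat.ble (capGC z x31) (x31.toNat + x19.toNat + x21.toNat + x20.toNat + x15.toNat + x17.toNat + x28.toNat + x22.toNat + x14.toNat + x27.toNat + x18.toNat + x16.toNat + x23.toNat + x25.toNat + x24.toNat + x26.toNat + x29.toNat + x13.toNat)) <|
  all2 fun x30 =>
  imp (dm x13 x18 x29 x30) <|
  imp (dm x25 x16 x23 x30) <|
  imp (dm x29 x13 x26 x30) <|
  imp (dm x30 x13 x25 x29) <|
  Nat.ble (capGC z x31) (x13.toNat + x14.toNat + x15.toNat + x16.toNat + x17.toNat + x18.toNat + x19.toNat + x20.toNat + x21.toNat + x22.toNat + x23.toNat + x24.toNat + x25.toNat + x26.toNat + x27.toNat + x28.toNat + x29.toNat + x30.toNat + x31.toNat)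

theorem chkGC_true : chkGC = true := by decide +kernel

def capIA (z a : Bool) : ℕ := (cond z (cond a 50 4) (cond a 5 5))
def chkIA : Bool :=
  all2 fun z =>
  all2 fun x2 =>
  imp (nt x2 z) <|
  all2 fun x4 =>
  imp (nt x2 x4) <|
  all2 fun x10 =>
  imp (nt x4 x10) <|
  all2 fun x9 =>
  imp (dm x4 x2 x9 x10) <|
  imp (nt x4 x9) <|
  all2 fun x1 =>
  imp (nt x1 x9) <|
  imp (nt x1 x10) <|
  all2 fun x3 =>
  imp (dm x2 x3 x4 z) <|
  imp (nt x2 x3) <|
  all2 fun x11 =>
  imp (nt x3 x11) <|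
  all2 fun x0 =>
  imp (nt x0 x1) <|
  imp (nt x0 x11) <|
  imp (dm x1 x0 x9 x10) <|
  all2 fun x12 =>
  imp (dm x0 x1 x11 x12) <|
  imp (nt x0 x12) <|
  imp (dm x3 x2 x11 x12) <|
  imp (nt x3 x12) <|
  all2 fun x7 =>
  imp (nt x7 x11) <|
  imp (dm x11 x0 x3 x7) <|
  all2 fun x6 =>
  imp (nt x6 x7) <|
  imp (nt x6 x9) <|
  imp (dm x9 x1 x4 x6) <|
  all2 fun x5 =>
  imp (nt x5 x6) <|
  imp (nt x5 x10) <|
  imp (dm x6 x5 x7 x9) <|
  imp (dm x10 x1 x4 x5) <|
  all2 fun x8 =>
  imp (dm x5 x6 x8 x10) <|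
  imp (nt x5 x8) <|
  imp (dm x7 x6 x8 x11) <|
  imp (nt x7 x8) <|
  imp (dm x8 x5 x7 x12) <|
  imp (nt x8 x12) <|
  imp (dm x12 x0 x3 x8) <|
  Nat.ble (capIA z x2) (x0.toNat + x1.toNat + x2.toNat + x3.toNat + x4.toNat + x5.toNat + x6.toNat + x7.toNat + x8.toNat + x9.toNat + x10.toNat + x11.toNat + x12.toNat)

theorem chkIA_true : chkIA = true := by decide +kernel

def capIC (z a : Bool) : ℕ := (cond z (cond a 50 5) (cond a 6 5))
def chkIC : Bool :=
  all2 fun z =>
  all2 fun x31 =>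
  imp (nt x31 z) <|
  all2 fun x21 =>
  imp (nt x21 x31) <|
  all2 fun x19 =>
  imp (nt x19 x31) <|
  imp (dm x31 z x19 x21) <|
  all2 fun x15 =>
  imp (nt x15 x19) <|
  imp (nt x15 x21) <|
  all2 fun x28 =>
  imp (dm x21 x15 x28 x31) <|
  imp (nt x21 x28) <|
  all2 fun x18 =>
  imp (nt x18 x28) <|
  all2 fun x27 =>
  imp (nt x18 x27) <|
  imp (nt x27 x28) <|
  imp (dm x28 x18 x21 x27) <|
  all2 fun x20 =>
  imp (dm x19 x15 x20 x31) <|
  imp (nt x19 x20) <|
  all2 fun x22 =>
  imp (nt x20 x22) <|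
  imp (nt x22 x27) <|
  imp (dm x27 x18 x22 x28) <|
  all2 fun x14 =>
  imp (nt x14 x20) <|
  imp (nt x14 x22) <|
  imp (dm x20 x14 x19 x22) <|
  imp (dm x22 x14 x20 x27) <|
  all2 fun x16 =>
  imp (dm x14 x16 x20 x22) <|
  imp (nt x14 x16) <|
  all2 fun x23 =>
  imp (nt x16 x23) <|
  all2 fun x25 =>
  imp (dm x16 x14 x23 x25) <|
  imp (nt x16 x25) <|
  imp (nt x23 x25) <|
  all2 fun x17 =>
  imp (dm x15 x17 x19 x21) <|
  imp (nt x15 x17) <|
  all2 fun x24 =>
  imp (nt x17 x24) <|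
  imp (dm x23 x16 x24 x25) <|
  imp (nt x23 x24) <|
  all2 fun x26 =>
  imp (dm x17 x15 x24 x26) <|
  imp (nt x17 x26) <|
  imp (dm x24 x17 x23 x26) <|
  imp (nt x24 x26) <|
  all2 fun x29 =>
  imp (dm x26 x17 x24 x29) <|
  imp (nt x26 x29) <|
  all2 fun x30 =>
  imp (dm x25 x16 x23 x30) <|
  imp (nt x25 x30) <|
  imp (nt x29 x30) <|
  all2 fun x13 =>
  imp (dm x13 x18 x29 x30) <|
  imp (nt x13 x18) <|
  imp (nt x13 x29) <|
  imp (nt x13 x30) <|
  imp (dm x18 x13 x27 x28) <|
  imp (dm x29 x13 x26 x30) <|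
  imp (dm x30 x13 x25 x29) <|
  Nat.ble (capIC z x31) (x13.toNat + x14.toNat + x15.toNat + x16.toNat + x17.toNat + x18.toNat + x19.toNat + x20.toNat + x21.toNat + x22.toNat + x23.toNat + x24.toNat + x25.toNat + x26.toNat + x27.toNat + x28.toNat + x29.toNat + x30.toNat + x31.toNat)

theorem chkIC_true : chkIC = true := by decide +kernel

def capBA (z a : Bool) : ℕ := (cond z (cond a 0 5) (cond a 5 5))
def chkBA : Bool :=
  all2 fun z =>
  all2 fun x2 =>
  imp (nt x2 z) <|
  all2 fun x4 =>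
  imp (nt x2 x4) <|
  all2 fun x9 =>
  imp (nt x4 x9) <|
  all2 fun x1 =>
  imp (nt x1 x9) <|
  all2 fun x10 =>
  imp (nt x1 x10) <|
  imp (nt x4 x10) <|
  all2 fun x5 =>
  imp (nt x5 x10) <|
  all2 fun x6 =>
  imp (nt x5 x6) <|
  imp (nt x6 x9) <|
  all2 fun x0 =>
  imp (nt x0 x1) <|
  all2 fun x11 =>
  imp (nt x0 x11) <|
  all2 fun x3 =>
  imp (nt x2 x3) <|
  imp (nt x3 x11) <|
  all2 fun x12 =>
  imp (nt x0 x12) <|
  imp (nt x3 x12) <|
  all2 fun x7 =>
  imp (nt x6 x7) <|
  imp (nt x7 x11) <|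
  all2 fun x8 =>
  imp (nt x5 x8) <|
  imp (nt x7 x8) <|
  imp (nt x8 x12) <|
  Nat.ble (x0.toNat + x1.toNat + x2.toNat + x3.toNat + x4.toNat + x5.toNat + x6.toNat + x7.toNat + x8.toNat + x9.toNat + x10.toNat + x11.toNat + x12.toNat) (capBA z x2)

theorem chkBA_true : chkBA = true := by decide +kernel

def capBC (z a : Bool) : ℕ := (cond z (cond a 0 7) (cond a 7 7))
def chkBC : Bool :=
  all2 fun z =>
  all2 fun x31 =>
  imp (nt x31 z) <|
  all2 fun x21 =>
  imp (nt x21 x31) <|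
  all2 fun x28 =>
  imp (nt x21 x28) <|
  all2 fun x27 =>
  imp (nt x27 x28) <|
  all2 fun x18 =>
  imp (nt x18 x27) <|
  imp (nt x18 x28) <|
  all2 fun x13 =>
  imp (nt x13 x18) <|
  all2 fun x29 =>
  imp (nt x13 x29) <|
  all2 fun x30 =>
  imp (nt x13 x30) <|
  imp (nt x29 x30) <|
  all2 fun x15 =>
  imp (nt x15 x21) <|
  all2 fun x17 =>
  imp (nt x15 x17) <|
  all2 fun x26 =>
  imp (nt x17 x26) <|
  imp (nt x26 x29) <|
  all2 fun x24 =>
  imp (nt x17 x24) <|
  imp (nt x24 x26) <|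
  all2 fun x19 =>
  imp (nt x15 x19) <|
  imp (nt x19 x31) <|
  all2 fun x20 =>
  imp (nt x19 x20) <|
  all2 fun x22 =>
  imp (nt x20 x22) <|
  imp (nt x22 x27) <|
  all2 fun x14 =>
  imp (nt x14 x20) <|
  imp (nt x14 x22) <|
  all2 fun x16 =>
  imp (nt x14 x16) <|
  all2 fun x23 =>
  imp (nt x16 x23) <|
  imp (nt x23 x24) <|
  all2 fun x25 =>
  imp (nt x16 x25) <|
  imp (nt x23 x25) <|
  imp (nt x25 x30) <|
  Nat.ble (x13.toNat + x14.toNat + x15.toNat + x16.toNat + x17.toNat + x18.toNat + x19.toNat + x20.toNat + x21.toNat + x22.toNat + x23.toNat + x24.toNat + x25.toNat + x26.toNat + x27.toNat + x28.toNat + x29.toNat + x30.toNat + x31.toNat) (capBC z x31)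

theorem chkBC_true : chkBC = true := by decide +kernel

def capUA (z d a e : Bool) : ℕ := (cond z (cond d (cond a (cond e 5 5) (cond e 6 6)) (cond a (cond e 5 5) (cond e 6 6))) (cond d (cond a (cond e 5 5) (cond e 6 0)) (cond a (cond e 7 5) (cond e 6 0))))
def chkUA : Bool :=
  all2 fun z => all2 fun d =>
  all2 fun x2 =>
  all2 fun x10 =>
  all2 fun x4 =>
  all2 fun x9 =>
  imp (dm x4 x2 x9 x10) <|
  all2 fun x1 =>
  all2 fun x5 =>
  imp (dm x10 x1 x4 x5) <|
  all2 fun x6 =>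
  imp (dm x9 x1 x4 x6) <|
  all2 fun x8 =>
  imp (dm x5 x6 x8 x10) <|
  all2 fun x0 =>
  imp (dm x1 x0 x9 x10) <|
  imp (pv x10 x1 x4 x5 x0 x9 x2 x9 x6 x8) <|
  all2 fun x7 =>
  imp (dm x6 x5 x7 x9) <|
  imp (pv x9 x1 x4 x6 x0 x10 x2 x10 x5 x7) <|
  all2 fun x11 =>
  imp (pv x6 x5 x7 x9 x8 x10 x8 x11 x1 x4) <|
  imp (dm x7 x6 x8 x11) <|
  all2 fun x12 =>
  imp (dm x0 x1 x11 x12) <|
  imp (pv x1 x0 x9 x10 x11 x12 x4 x6 x4 x5) <|
  imp (pv x5 x6 x8 x10 x7 x9 x7 x12 x1 x4) <|
  imp (dm x8 x5 x7 x12) <|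
  all2 fun x3 =>
  imp (pv x0 x1 x11 x12 x9 x10 x3 x7 x3 x8) <|
  imp (dm x2 x3 x4 z) <|
  imp (pv x2 x3 x4 z x11 x12 x9 x10 d false) <|
  imp (dm x3 x2 x11 x12) <|
  imp (pv x3 x2 x11 x12 x4 z x0 x7 x0 x8) <|
  imp (pv x4 x2 x9 x10 x3 z x1 x6 x1 x5) <|
  imp (pv x7 x6 x8 x11 x5 x9 x5 x12 x0 x3) <|
  imp (pv x8 x5 x7 x12 x6 x10 x6 x11 x0 x3) <|
  imp (dm x11 x0 x3 x7) <|
  imp (pv x11 x0 x3 x7 x1 x12 x2 x12 x6 x8) <|
  imp (dm x12 x0 x3 x8) <|
  imp (pv x12 x0 x3 x8 x1 x11 x2 x11 x5 x7) <|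
  Nat.ble (x0.toNat + x1.toNat + x2.toNat + x3.toNat + x4.toNat + x5.toNat + x6.toNat + x7.toNat + x8.toNat + x9.toNat + x10.toNat + x11.toNat + x12.toNat) (capUA z d x2 (x3 || x4))

theorem chkUA_true : chkUA = true := by decide +kernel

def capUC (z d a e : Bool) : ℕ := (cond z (cond d (cond a (cond e 7 6) (cond e 7 6)) (cond a (cond e 7 6) (cond e 7 6))) (cond d (cond a (cond e 7 7) (cond e 7 0)) (cond a (cond e 7 7) (cond e 7 0))))
def chkUC : Bool :=
  all2 fun z => all2 fun d =>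
  all2 fun x31 =>
  all2 fun x21 =>
  all2 fun x19 =>
  imp (dm x31 z x19 x21) <|
  all2 fun x15 =>
  all2 fun x20 =>
  imp (dm x19 x15 x20 x31) <|
  all2 fun x28 =>
  imp (dm x21 x15 x28 x31) <|
  imp (pv x31 z x19 x21 d false x15 x20 x15 x28) <|
  all2 fun x18 =>
  all2 fun x27 =>
  imp (dm x28 x18 x21 x27) <|
  all2 fun x17 =>
  imp (dm x15 x17 x19 x21) <|
  imp (pv x21 x15 x28 x31 x17 x19 x18 x27 z x19) <|
  all2 fun x22 =>
  imp (dm x27 x18 x22 x28) <|
  all2 fun x13 =>
  imp (dm x18 x13 x27 x28) <|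
  imp (pv x28 x18 x21 x27 x13 x27 x15 x31 x18 x22) <|
  all2 fun x14 =>
  imp (pv x19 x15 x20 x31 x17 x21 x14 x22 z x21) <|
  imp (dm x20 x14 x19 x22) <|
  imp (dm x22 x14 x20 x27) <|
  imp (pv x27 x18 x22 x28 x13 x28 x14 x20 x18 x21) <|
  all2 fun x16 =>
  imp (dm x14 x16 x20 x22) <|
  imp (pv x20 x14 x19 x22 x16 x22 x15 x31 x14 x27) <|
  imp (pv x22 x14 x20 x27 x16 x20 x14 x19 x18 x28) <|
  all2 fun x29 =>
  all2 fun x30 =>
  imp (dm x13 x18 x29 x30) <|
  imp (pv x18 x13 x27 x28 x29 x30 x22 x28 x21 x27) <|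
  all2 fun x26 =>
  imp (dm x29 x13 x26 x30) <|
  all2 fun x25 =>
  imp (pv x13 x18 x29 x30 x27 x28 x26 x30 x25 x29) <|
  imp (dm x30 x13 x25 x29) <|
  all2 fun x23 =>
  imp (pv x14 x16 x20 x22 x23 x25 x19 x22 x20 x27) <|
  imp (dm x16 x14 x23 x25) <|
  imp (dm x25 x16 x23 x30) <|
  imp (pv x30 x13 x25 x29 x18 x29 x16 x23 x13 x26) <|
  all2 fun x24 =>
  imp (pv x15 x17 x19 x21 x24 x26 x20 x31 x28 x31) <|
  imp (pv x16 x14 x23 x25 x20 x22 x24 x25 x23 x30) <|
  imp (dm x17 x15 x24 x26) <|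
  imp (pv x17 x15 x24 x26 x19 x21 x23 x26 x24 x29) <|
  imp (dm x23 x16 x24 x25) <|
  imp (pv x23 x16 x24 x25 x14 x25 x17 x26 x16 x30) <|
  imp (dm x24 x17 x23 x26) <|
  imp (pv x24 x17 x23 x26 x15 x26 x16 x25 x17 x29) <|
  imp (pv x25 x16 x23 x30 x14 x23 x16 x24 x13 x29) <|
  imp (dm x26 x17 x24 x29) <|
  imp (pv x26 x17 x24 x29 x15 x24 x17 x23 x13 x30) <|
  imp (pv x29 x13 x26 x30 x18 x30 x17 x24 x13 x25) <|
  Nat.ble (x13.toNat + x14.toNat + x15.toNat + x16.toNat + x17.toNat + x18.toNat + x19.toNat + x20.toNat + x21.toNat + x22.toNat + x23.toNat + x24.toNat + x25.toNat + x26.toNat + x27.toNat + x28.toNat + x29.toNat + x30.toNat + x31.toNat) (capUC z d x31 (x19 || x21))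

theorem chkUC_true : chkUC = true := by decide +kernel


/-! ### From sets to Boolean functions -/

/-- The number of vertices of the first piece in the set given by `f`. -/
def sumA (f : Fin 32 → Bool) : ℕ :=
  (f 0).toNat + (f 1).toNat + (f 2).toNat + (f 3).toNat + (f 4).toNat + (f 5).toNat + (f 6).toNat + (f 7).toNat + (f 8).toNat + (f 9).toNat + (f 10).toNat + (f 11).toNat + (f 12).toNat

/-- The number of vertices of the second piece in the set given by `f`. -/
def sumC (f : Fin 32 → Bool) : ℕ :=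
  (f 13).toNat + (f 14).toNat + (f 15).toNat + (f 16).toNat + (f 17).toNat + (f 18).toNat + (f 19).toNat + (f 20).toNat + (f 21).toNat + (f 22).toNat + (f 23).toNat + (f 24).toNat + (f 25).toNat + (f 26).toNat + (f 27).toNat + (f 28).toNat + (f 29).toNat + (f 30).toNat + (f 31).toNat

theorem ncard_eq (f : Fin 32 → Bool) : {v | f v = true}.ncard = sumA f + sumC f := by
  classical
  have h1 : {v | f v = true} = ((Finset.univ.filter fun v => f v = true : Finset (Fin 32)) : Set (Fin 32)) := by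
    ext v; simp
  rw [h1, Set.ncard_coe_finset, Finset.card_filter]
  have h2 : ∀ v : Fin 32, (if f v = true then 1 else 0 : ℕ) = (f v).toNat := by
    intro v; cases f v <;> rfl
  rw [Finset.sum_congr rfl fun v _ => h2 v]
  simp only [sumA, sumC, Fin.sum_univ_succ, Fin.succ_zero_eq_one, Finset.univ_eq_empty, Finset.sum_empty]
  simp only [Fin.isValue, add_zero, ← add_assoc]
  rfl

set_option maxHeartbeats 2000000 in
theorem boundGA (f : Fin 32 → Bool)
    (hd : ∀ v, dm (f v) (f (N v 0)) (f (N v 1)) (f (N v 2)) = true) :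
    capGA (f 31) (f 2) ≤ sumA f := by
  have h := chkGA_true
  simp only [chkGA, all2_iff, imp_iff] at h
  unfold sumA
  by_contra hlt
  rw [not_le] at hlt
  refine absurd (Nat.le_of_ble_eq_true (h (f 31) (f 2) (f 4) (f 3) (hd 2) (f 12) (pr (by omega)) (f 11) (hd 3) (pr (by omega)) (f 7) (pr (by omega)) (f 0) (hd 11) (pr (by omega)) (f 8) (hd 12) (pr (by omega)) (f 5) (hd 8) (pr (by omega)) (f 1) (hd 0) (pr (by omega)) (f 10) (hd 10) (pr (by omega)) (f 6) (hd 5) (hd 7) (pr (by omega)) (f 9) (hd 1) (hd 4) (hd 6) (hd 9))) (by omega)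

set_option maxHeartbeats 2000000 in
theorem boundGC (f : Fin 32 → Bool)
    (hd : ∀ v, dm (f v) (f (N v 0)) (f (N v 1)) (f (N v 2)) = true) :
    capGC (f 2) (f 31) ≤ sumC f := by
  have h := chkGC_true
  simp only [chkGC, all2_iff, imp_iff] at h
  unfold sumC
  by_contra hlt
  rw [not_le] at hlt
  refine absurd (Nat.le_of_ble_eq_true (h (f 2) (f 31) (f 19) (f 21) (hd 31) (f 20) (pr (by omega)) (f 15) (hd 19) (pr (by omega)) (f 17) (hd 15) (pr (by omega)) (f 28) (hd 21) (pr (by omega)) (f 22) (pr (by omega)) (f 14) (hd 20) (pr (by omega)) (f 27) (hd 22) (pr (by omega)) (f 18) (hd 27) (hd 28) (pr (by omega)) (f 16) (hd 14) (pr (by omega)) (f 23) (pr (by omega)) (f 25) (hd 16) (pr (by omega)) (f 24) (hd 23) (pr (by omega)) (f 26) (hd 17) (hd 24) (pr (by omega)) (f 29) (hd 26) (pr (by omega)) (f 13) (hd 18) (pr (by omega)) (f 30) (hd 13) (hd 25) (hd 29) (hd 30))) (by omega)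

set_option maxHeartbeats 2000000 in
theorem boundIA (f : Fin 32 → Bool)
    (hd : ∀ v, dm (f v) (f (N v 0)) (f (N v 1)) (f (N v 2)) = true)
    (hi : ∀ v w, (∃ t, N v t = w) → nt (f v) (f w) = true) :
    capIA (f 31) (f 2) ≤ sumA f := by
  have h := chkIA_true
  simp only [chkIA, all2_iff, imp_iff] at h
  exact Nat.le_of_ble_eq_true (h (f 31) (f 2) (hi 2 31 (by decide)) (f 4) (hi 2 4 (by decide)) (f 10) (hi 4 10 (by decide)) (f 9) (hd 4) (hi 4 9 (by decide)) (f 1) (hi 1 9 (by decide)) (hi 1 10 (by decide)) (f 3) (hd 2) (hi 2 3 (by decide)) (f 11) (hi 3 11 (by decide)) (f 0) (hi 0 1 (by decide)) (hi 0 11 (by decide)) (hd 1) (f 12) (hd 0) (hi 0 12 (by decide)) (hd 3) (hi 3 12 (by decide)) (f 7) (hi 7 11 (by decide)) (hd 11) (f 6) (hi 6 7 (by decide)) (hi 6 9 (by decide)) (hd 9) (f 5) (hi 5 6 (by decide)) (hi 5 10 (by decide)) (hd 6) (hd 10) (f 8) (hd 5) (hi 5 8 (by decide)) (hd 7) (hi 7 8 (by decide)) (hd 8) (hi 8 12 (by decide)) (hd 12))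

set_option maxHeartbeats 2000000 in
theorem boundIC (f : Fin 32 → Bool)
    (hd : ∀ v, dm (f v) (f (N v 0)) (f (N v 1)) (f (N v 2)) = true)
    (hi : ∀ v w, (∃ t, N v t = w) → nt (f v) (f w) = true) :
    capIC (f 2) (f 31) ≤ sumC f := by
  have h := chkIC_true
  simp only [chkIC, all2_iff, imp_iff] at h
  exact Nat.le_of_ble_eq_true (h (f 2) (f 31) (hi 31 2 (by decide)) (f 21) (hi 21 31 (by decide)) (f 19) (hi 19 31 (by decide)) (hd 31) (f 15) (hi 15 19 (by decide)) (hi 15 21 (by decide)) (f 28) (hd 21) (hi 21 28 (by decide)) (f 18) (hi 18 28 (by decide)) (f 27) (hi 18 27 (by decide)) (hi 27 28 (by decide)) (hd 28) (f 20) (hd 19) (hi 19 20 (by decide)) (f 22) (hi 20 22 (by decide)) (hi 22 27 (by decide)) (hd 27) (f 14) (hi 14 20 (by decide)) (hi 14 22 (by decide)) (hd 20) (hd 22) (f 16) (hd 14) (hi 14 16 (by decide)) (f 23) (hi 16 23 (by decide)) (f 25) (hd 16) (hi 16 25 (by decide)) (hi 23 25 (by decide)) (f 17) (hd 15) (hi 15 17 (by decide)) (f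 24) (hi 17 24 (by decide)) (hd 23) (hi 23 24 (by decide)) (f 26) (hd 17) (hi 17 26 (by decide)) (hd 24) (hi 24 26 (by decide)) (f 29) (hd 26) (hi 26 29 (by decide)) (f 30) (hd 25) (hi 25 30 (by decide)) (hi 29 30 (by decide)) (f 13) (hd 13) (hi 13 18 (by decide)) (hi 13 29 (by decide)) (hi 13 30 (by decide)) (hd 18) (hd 29) (hd 30))

set_option maxHeartbeats 2000000 in
theorem boundBA (f : Fin 32 → Bool)
    (hi : ∀ v w, (∃ t, N v t = w) → nt (f v) (f w) = true) :
    sumA f ≤ capBA (f 31) (f 2) := by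
  have h := chkBA_true
  simp only [chkBA, all2_iff, imp_iff] at h
  exact Nat.le_of_ble_eq_true (h (f 31) (f 2) (hi 2 31 (by decide)) (f 4) (hi 2 4 (by decide)) (f 9) (hi 4 9 (by decide)) (f 1) (hi 1 9 (by decide)) (f 10) (hi 1 10 (by decide)) (hi 4 10 (by decide)) (f 5) (hi 5 10 (by decide)) (f 6) (hi 5 6 (by decide)) (hi 6 9 (by decide)) (f 0) (hi 0 1 (by decide)) (f 11) (hi 0 11 (by decide)) (f 3) (hi 2 3 (by decide)) (hi 3 11 (by decide)) (f 12) (hi 0 12 (by decide)) (hi 3 12 (by decide)) (f 7) (hi 6 7 (by decide)) (hi 7 11 (by decide)) (f 8) (hi 5 8 (by decide)) (hi 7 8 (by decide)) (hi 8 12 (by decide)))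

set_option maxHeartbeats 2000000 in
theorem boundBC (f : Fin 32 → Bool)
    (hi : ∀ v w, (∃ t, N v t = w) → nt (f v) (f w) = true) :
    sumC f ≤ capBC (f 2) (f 31) := by
  have h := chkBC_true
  simp only [chkBC, all2_iff, imp_iff] at h
  exact Nat.le_of_ble_eq_true (h (f 2) (f 31) (hi 31 2 (by decide)) (f 21) (hi 21 31 (by decide)) (f 28) (hi 21 28 (by decide)) (f 27) (hi 27 28 (by decide)) (f 18) (hi 18 27 (by decide)) (hi 18 28 (by decide)) (f 13) (hi 13 18 (by decide)) (f 29) (hi 13 29 (by decide)) (f 30) (hi 13 30 (by decide)) (hi 29 30 (by decide)) (f 15) (hi 15 21 (by decide)) (f 17) (hi 15 17 (by decide)) (f 26) (hi 17 26 (by decide)) (hi 26 29 (by decide)) (f 24) (hi 17 24 (by decide)) (hi 24 26 (by decide)) (f 19) (hi 15 19 (by decide)) (hi 19 31 (by decide)) (f 20) (hi 19 20 (by decide)) (f 22) (hi 20 22 (by decide)) (hi 22 27 (by decide)) (f 14) (hi 14 20 (by decide)) (hi 14 22 (by decide)) (f 16) (hi 14 16 (by decide)) (f 23) (hi 16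 23 (by decide)) (hi 23 24 (by decide)) (f 25) (hi 16 25 (by decide)) (hi 23 25 (by decide)) (hi 25 30 (by decide)))

set_option maxHeartbeats 2000000 in
theorem boundUA (f : Fin 32 → Bool)
    (hd : ∀ v, dm (f v) (f (N v 0)) (f (N v 1)) (f (N v 2)) = true)
    (hp : ∀ v, pv (f v) (f (N v 0)) (f (N v 1)) (f (N v 2)) (f (O v 0 0)) (f (O v 0 1)) (f (O v 1 0))
      (f (O v 1 1)) (f (O v 2 0)) (f (O v 2 1)) = true) :
    sumA f ≤ capUA (f 31) (f 19 || f 21) (f 2) (f 3 || f 4) := by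
  have h := chkUA_true
  simp only [chkUA, all2_iff, imp_iff] at h
  have hpe : pv (f 2) (f 3) (f 4) (f 31) (f 11) (f 12) (f 9) (f 10) (f 19 || f 21) false = true := by
    have h1 := hp 2
    have h2 : pv (f 2) (f 3) (f 4) (f 31) (f 11) (f 12) (f 9) (f 10) (f 19) (f 21) = true := h1
    clear h hd hp h1
    revert h2
    generalize f 2 = y2; generalize f 3 = y3; generalize f 4 = y4; generalize f 9 = y9; generalize f 10 = y10; generalize f 11 = y11; generalize f 12 = y12; generalize f 19 = y19; generalize f 21 = y21; generalize f 31 = y31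
    revert y2 y3 y4 y9 y10 y11 y12 y19 y21 y31
    decide
  exact Nat.le_of_ble_eq_true (h (f 31) (f 19 || f 21) (f 2) (f 10) (f 4) (f 9) (hd 4) (f 1) (f 5) (hd 10) (f 6) (hd 9) (f 8) (hd 5) (f 0) (hd 1) (hp 10) (f 7) (hd 6) (hp 9) (f 11) (hp 6) (hd 7) (f 12) (hd 0) (hp 1) (hp 5) (hd 8) (f 3) (hp 0) (hd 2) (hpe) (hd 3) (hp 3) (hp 4) (hp 7) (hp 8) (hd 11) (hp 11) (hd 12) (hp 12))

set_option maxHeartbeats 2000000 in
theorem boundUC (f : Fin 32 → Bool)
    (hd : ∀ v, dm (f v) (f (N v 0)) (f (N v 1)) (f (N v 2)) = true)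
    (hp : ∀ v, pv (f v) (f (N v 0)) (f (N v 1)) (f (N v 2)) (f (O v 0 0)) (f (O v 0 1)) (f (O v 1 0))
      (f (O v 1 1)) (f (O v 2 0)) (f (O v 2 1)) = true) :
    sumC f ≤ capUC (f 2) (f 3 || f 4) (f 31) (f 19 || f 21) := by
  have h := chkUC_true
  simp only [chkUC, all2_iff, imp_iff] at h
  have hpe : pv (f 31) (f 2) (f 19) (f 21) (f 3 || f 4) false (f 15) (f 20) (f 15) (f 28) = true := by
    have h1 := hp 31
    have h2 : pv (f 31) (f 2) (f 19) (f 21) (f 3) (f 4) (f 15) (f 20) (f 15) (f 28) = true := h1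
    clear h hd hp h1
    revert h2
    generalize f 2 = y2; generalize f 3 = y3; generalize f 4 = y4; generalize f 15 = y15; generalize f 19 = y19; generalize f 20 = y20; generalize f 21 = y21; generalize f 28 = y28; generalize f 31 = y31
    revert y2 y3 y4 y15 y19 y20 y21 y28 y31
    decide
  exact Nat.le_of_ble_eq_true (h (f 2) (f 3 || f 4) (f 31) (f 21) (f 19) (hd 31) (f 15) (f 20) (hd 19) (f 28) (hd 21) (hpe) (f 18) (f 27) (hd 28) (f 17) (hd 15) (hp 21) (f 22) (hd 27) (f 13) (hd 18) (hp 28) (f 14) (hp 19) (hd 20) (hd 22) (hp 27) (f 16) (hd 14) (hp 20) (hp 22) (f 29) (f 30) (hd 13) (hp 18) (f 26) (hd 29) (f 25) (hp 13) (hd 30) (f 23) (hp 14) (hd 16) (hd 25) (hp 30) (f 24) (hp 15) (hp 16) (hd 17) (hp 17) (hd 23) (hp 23) (hd 24) (hp 24) (hp 25) (hd 26) (hp 26) (hp 29))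

theorem le_card_of_dom (f : Fin 32 → Bool)
    (hd : ∀ v, dm (f v) (f (N v 0)) (f (N v 1)) (f (N v 2)) = true) : 9 ≤ sumA f + sumC f := by
  have hc : ∀ a c : Bool, 9 ≤ capGA c a + capGC a c := by decide
  exact (hc (f 2) (f 31)).trans (add_le_add (boundGA f hd) (boundGC f hd))

theorem le_card_of_indepDom (f : Fin 32 → Bool)
    (hd : ∀ v, dm (f v) (f (N v 0)) (f (N v 1)) (f (N v 2)) = true)
    (hi : ∀ v w, (∃ t, N v t = w) → nt (f v) (f w) = true) : 10 ≤ sumA f + sumC f := by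
  have hc : ∀ a c : Bool, 10 ≤ capIA c a + capIC a c := by decide
  exact (hc (f 2) (f 31)).trans (add_le_add (boundIA f hd hi) (boundIC f hd hi))

theorem card_le_of_indep (f : Fin 32 → Bool)
    (hi : ∀ v w, (∃ t, N v t = w) → nt (f v) (f w) = true) : sumA f + sumC f ≤ 12 := by
  have hc : ∀ a c : Bool, capBA c a + capBC a c ≤ 12 := by decide
  exact (add_le_add (boundBA f hi) (boundBC f hi)).trans (hc (f 2) (f 31))

theorem card_le_of_minDom (f : Fin 32 → Bool)
    (hd : ∀ v, dm (f v) (f (N v 0)) (f (N v 1)) (f (N v 2)) = true)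
    (hp : ∀ v, pv (f v) (f (N v 0)) (f (N v 1)) (f (N v 2)) (f (O v 0 0)) (f (O v 0 1)) (f (O v 1 0))
      (f (O v 1 1)) (f (O v 2 0)) (f (O v 2 1)) = true) : sumA f + sumC f ≤ 13 := by
  have hc : ∀ a d c e : Bool, capUA c e a d + capUC a d c e ≤ 13 := by decide
  exact (add_le_add (boundUA f hd hp) (boundUC f hd hp)).trans
    (hc (f 2) (f 3 || f 4) (f 31) (f 19 || f 21))

/-! ### Transfer to sets -/

open Classical in
/-- The Boolean indicator function of a set. -/
noncomputable def ind (S : Set (Fin 32)) (v : Fin 32) : Bool := decide (v ∈ S)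

theorem ind_iff (S : Set (Fin 32)) (v : Fin 32) : ind S v = true ↔ v ∈ S := by
  simp [ind]

theorem ncard_ind (S : Set (Fin 32)) : S.ncard = sumA (ind S) + sumC (ind S) := by
  rw [← ncard_eq]
  congr 1
  ext v
  exact (ind_iff S v).symm

theorem dom_bool {S : Set (Fin 32)} (h : IsDominating G S) (v : Fin 32) :
    dm (ind S v) (ind S (N v 0)) (ind S (N v 1)) (ind S (N v 2)) = true := by
  obtain ⟨u, hu, huv⟩ := (isDominating_iff G S).1 h v
  have huv' : u = v ∨ ∃ t, N v t = u := by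
    rcases huv with h | h
    · exact Or.inl h.symm
    · exact Or.inr h.symm
  rw [← ind_iff] at hu
  rcases huv' with rfl | ⟨t, rfl⟩
  · simp [dm, hu]
  · fin_cases t
    · have : ind S (N v 0) = true := hu
      simp [dm, this]
    · have : ind S (N v 1) = true := hu
      simp [dm, this]
    · have : ind S (N v 2) = true := hu
      simp [dm, this]

theorem indep_bool {S : Set (Fin 32)} (h : IsIndependent G S) (v w : Fin 32)
    (hvw : ∃ t, N v t = w) : nt (ind S v) (ind S w) = true := by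
  cases hv : ind S v
  · rfl
  · cases hw : ind S w
    · rfl
    · exact absurd hvw (h v ((ind_iff S v).1 hv) w ((ind_iff S w).1 hw))

theorem priv_bool {S : Set (Fin 32)} (h : IsIrredundant G S) (v : Fin 32) :
    pv (ind S v) (ind S (N v 0)) (ind S (N v 1)) (ind S (N v 2)) (ind S (O v 0 0))
      (ind S (O v 0 1)) (ind S (O v 1 0)) (ind S (O v 1 1)) (ind S (O v 2 0))
      (ind S (O v 2 1)) = true := by
  cases hv : ind S v
  · rfl
  · obtain ⟨x, hx, hx'⟩ := (isIrredundant_iff G S).1 h v ((ind_iff S v).1 hv)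
    have key : ∀ y, y ≠ v → (y = x ∨ ∃ t, N x t = y) → ind S y = false := by
      intro y hy hyx
      cases hys : ind S y
      · rfl
      · refine absurd ?_ (hx' y ((ind_iff S y).1 hys) hy)
        rcases hyx with h | h
        · exact Or.inl h.symm
        · exact Or.inr (SimpleGraph.Adj.symm (G := G) h)
    have hx2 : x = v ∨ ∃ t, N v t = x := hx
    rcases hx2 with rfl | ⟨t, rfl⟩
    · have e0 := key (N x 0) (O_spec' x 0).2.2.1 (Or.inr ⟨0, rfl⟩)
      have e1 := key (N x 1) (O_spec' x 1).2.2.1 (Or.inr ⟨1, rfl⟩)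
      have e2 := key (N x 2) (O_spec' x 2).2.2.1 (Or.inr ⟨2, rfl⟩)
      simp [pv, e0, e1, e2]
    · have e0 := key (N v t) (O_spec' v t).2.2.1 (Or.inl rfl)
      have e1 := key (O v t 0) (O_spec' v t).2.2.2.1 (Or.inr (O_spec' v t).1)
      have e2 := key (O v t 1) (O_spec' v t).2.2.2.2 (Or.inr (O_spec' v t).2.1)
      fin_cases t
      · have e0' : ind S (N v 0) = false := e0
        have e1' : ind S (O v 0 0) = false := e1
        have e2' : ind S (O v 0 1) = false := e2
        simp [pv, e0', e1', e2']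
      · have e0' : ind S (N v 1) = false := e0
        have e1' : ind S (O v 1 0) = false := e1
        have e2' : ind S (O v 1 1) = false := e2
        simp [pv, e0', e1', e2']
      · have e0' : ind S (N v 2) = false := e0
        have e1' : ind S (O v 2 0) = false := e1
        have e2' : ind S (O v 2 1) = false := e2
        simp [pv, e0', e1', e2']

/-! ### The sets -/

/-- A maximal irredundant set of size 8. -/
def Wir : Finset (Fin 32) := {0, 11, 12, 19, 21, 24, 26, 31}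

/-- A dominating set of size 9. -/
def Wga : Finset (Fin 32) := {0, 2, 5, 6, 13, 16, 17, 20, 28}

/-- A maximal independent set of size 10. -/
def Win : Finset (Fin 32) := {0, 2, 5, 7, 9, 13, 16, 17, 20, 28}

/-- An independent set of size 12. -/
def Wbe : Finset (Fin 32) := {0, 2, 5, 7, 9, 13, 14, 17, 19, 21, 23, 27}

/-- A minimal dominating set of size 13. -/
def WGa : Finset (Fin 32) := {0, 1, 5, 8, 10, 12, 13, 14, 15, 16, 18, 24, 31}

/-- An irredundant set of size 14. -/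
def WIR : Finset (Fin 32) := {0, 1, 5, 8, 10, 12, 13, 14, 15, 21, 22, 29, 30, 31}

theorem dom_fin {F : Finset (Fin 32)} (h : ∀ w, ∃ v ∈ F, w = v ∨ ∃ t, N v t = w) :
    IsDominating G (F : Set (Fin 32)) := by
  rw [isDominating_iff]
  intro w
  obtain ⟨v, hv, hvw⟩ := h w
  exact ⟨v, Finset.mem_coe.2 hv, hvw⟩

theorem indep_fin {F : Finset (Fin 32)} (h : ∀ v ∈ F, ∀ w ∈ F, ¬ ∃ t, N v t = w) :
    IsIndependent G (F : Set (Fin 32)) :=
  fun v hv w hw => h v (Finset.mem_coe.1 hv) w (Finset.mem_coe.1 hw)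

theorem irr_fin {F : Finset (Fin 32)}
    (h : ∀ v ∈ F, ∃ x, (x = v ∨ ∃ t, N v t = x) ∧ ∀ y ∈ F, y ≠ v → ¬ (x = y ∨ ∃ t, N y t = x)) :
    IsIrredundant G (F : Set (Fin 32)) := by
  rw [isIrredundant_iff]
  intro v hv
  obtain ⟨x, hx, hx'⟩ := h v (Finset.mem_coe.1 hv)
  exact ⟨x, hx, fun y hy hne => hx' y (Finset.mem_coe.1 hy) hne⟩

theorem not_irr_fin {F : Finset (Fin 32)} {w : Fin 32}
    (h : ∃ v ∈ insert w F, ∀ x, (x = v ∨ ∃ t, N v t = x) →
      ∃ y ∈ insert w F, y ≠ v ∧ (x = y ∨ ∃ t, N y t = x)) :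
    ¬ IsIrredundant G (insert w (F : Set (Fin 32))) := by
  rw [isIrredundant_iff]
  intro hcon
  obtain ⟨v, hv, hv'⟩ := h
  have hc : ((insert w F : Finset (Fin 32)) : Set (Fin 32)) = insert w (F : Set (Fin 32)) := by
    simp
  obtain ⟨x, hx, hx'⟩ := hcon v (by rw [← hc]; exact Finset.mem_coe.2 hv)
  obtain ⟨y, hy, hne, hyx⟩ := hv' x hx
  exact hx' y (by rw [← hc]; exact Finset.mem_coe.2 hy) hne hyx

theorem Wir_max : Maximal (IsIrredundant G) (Wir : Set (Fin 32)) := by
  refine maximal_irredundant G (irr_fin (by decide +kernel)) ?_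
  intro w hw
  have hw' : w ∉ Wir := fun h => hw (Finset.mem_coe.2 h)
  have key : ∀ w : Fin 32, w ∉ Wir → ∃ v ∈ insert w Wir, ∀ x, (x = v ∨ ∃ t, N v t = x) →
      ∃ y ∈ insert w Wir, y ≠ v ∧ (x = y ∨ ∃ t, N y t = x) := by decide +kernel
  exact not_irr_fin (key w hw')

theorem Wga_dom : IsDominating G (Wga : Set (Fin 32)) := dom_fin (by decide +kernel)

theorem Win_max : Maximal (IsIndependent G) (Win : Set (Fin 32)) :=
  maximal_indep_of_dominating G (indep_fin (by decide +kernel)) (dom_fin (by decide +kernel))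

theorem Wbe_indep : IsIndependent G (Wbe : Set (Fin 32)) := indep_fin (by decide +kernel)

theorem WGa_min : Minimal (IsDominating G) (WGa : Set (Fin 32)) :=
  minimal_of_irredundant G (dom_fin (by decide +kernel)) (irr_fin (by decide +kernel))

theorem WIR_irr : IsIrredundant G (WIR : Set (Fin 32)) := irr_fin (by decide +kernel)

/-! ### The parameters -/

theorem ir_le : irLower G ≤ 8 := by
  have h := irLower_le Wir_max
  rwa [Set.ncard_coe_finset, show Wir.card = 8 by decide +kernel] at h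

theorem gamma_eq : gammaLower G = 9 := by
  refine le_antisymm ?_ ?_
  · have h := gammaLower_le Wga_dom
    rwa [Set.ncard_coe_finset, show Wga.card = 9 by decide +kernel] at h
  · refine le_gammaLower fun S hS => ?_
    rw [ncard_ind S]
    exact le_card_of_dom (ind S) (dom_bool hS)

theorem indep_eq : indepLower G = 10 := by
  refine le_antisymm ?_ ?_
  · have h := indepLower_le Win_max
    rwa [Set.ncard_coe_finset, show Win.card = 10 by decide +kernel] at h
  · refine le_indepLower Win_max fun S hS => ?_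
    rw [ncard_ind S]
    exact le_card_of_indepDom (ind S) (dom_bool (dominating_of_maximal_indep G hS))
      (indep_bool hS.1)

theorem beta_eq : betaUpper G = 12 := by
  refine le_antisymm ?_ ?_
  · refine betaUpper_le fun S hS => ?_
    rw [ncard_ind S]
    exact card_le_of_indep (ind S) (indep_bool hS)
  · have h := le_betaUpper Wbe_indep
    rwa [Set.ncard_coe_finset, show Wbe.card = 12 by decide +kernel] at h

theorem Gamma_eq : gammaUpper G = 13 := by
  refine le_antisymm ?_ ?_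
  · refine gammaUpper_le WGa_min fun S hS => ?_
    rw [ncard_ind S]
    exact card_le_of_minDom (ind S) (dom_bool hS.1) (priv_bool (irredundant_of_minimal G hS))
  · have h := le_gammaUpper WGa_min
    rwa [Set.ncard_coe_finset, show WGa.card = 13 by decide +kernel] at h

theorem le_IR : 14 ≤ irUpper G := by
  have h := le_irUpper WIR_irr
  rwa [Set.ncard_coe_finset, show WIR.card = 14 by decide +kernel] at h

/-- There is a connected cubic graph (on 32 vertices) with
`ir < γ < i < β₀ < Γ < IR`. -/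
theorem result : ∃ (V : Type) (_ : Fintype V) (G : SimpleGraph V),
    G.Connected ∧ (∀ v, (G.neighborSet v).ncard = 3) ∧
      irLower G < gammaLower G ∧ gammaLower G < indepLower G ∧ indepLower G < betaUpper G ∧
      betaUpper G < gammaUpper G ∧ gammaUpper G < irUpper G := by
  refine ⟨Fin 32, inferInstance, G, connected, cubic, ?_⟩
  have h1 := ir_le
  have h2 := gamma_eq
  have h3 := indep_eq
  have h4 := beta_eq
  have h5 := Gamma_eq
  have h6 := le_IR
  omega

end Pool.Agent.Results.MP_93f3b8_co.StrictChain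

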